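import Pool.Agent.Helper44K9.FB.Stm

/-! [SETS] preimages under multiplication by `q` (helper65). -/

set_option autoImplicit false

namespace Pool.Agent.Helper44K9.FB

open Finset MeasureTheory

/-- [SETS] -/
theorem sets : S_SETS := by
  intro E q hq hE h0 hord
  have hc : Continuous fun y : UnitAddCircle => q • y := continuous_const_smul q
  refine ⟨?_, ?_, ?_⟩
  · exact (hE.isClosed.preimage hc).isCompact
  · have hmp : MeasurePreserving (fun y : UnitAddCircle => q • y) volume volume := by
      rcases Nat.lt_or_ge 1 q with h | h
      · exact (AddCircle.ergodic_nsmul h).toMeasurePreserving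
      · have : q = 1 := le_antisymm h hq
        subst this
        simp only [one_nsmul]
        exact MeasurePreserving.id volume
    exact (hmp.measure_preimage hE.measurableSet.nullMeasurableSet).trans h0
  · intro y hy
    have h1 := hord _ hy
    rw [addOrderOf_eq_zero_iff] at h1 ⊢
    intro h2
    apply h1
    exact h2.nsmul
end Pool.Agent.Helper44K9.FB
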