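import Pool.Agent.Helper44K9.FB.Stm

/-! [TRIGM] approximation by trigonometric polynomials on the torus (helper65). -/

set_option autoImplicit false

namespace Pool.Agent.Helper44K9.FB

open Finset

lemma fourier_lf {m : ℕ} (k : Fin m → ℤ) (x : Fin m → UnitAddCircle) :
    (fourier 1 (lf k x) : ℂ) = UnitAddTorus.mFourier k x := by
  unfold lf
  simp only [UnitAddTorus.mFourier, ContinuousMap.coe_mk, fourier_apply, one_smul]
  rw [show (AddCircle.toCircle (∑ i, k i • x i) : ℂ) = ((∏ i, AddCircle.toCircle (k i • x i) : Circle) : ℂ) from ?_]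
  · exact map_prod (Circle.coeHom) _ _
  · congr 1
    induction (Finset.univ : Finset (Fin m)) using Finset.induction_on with
    | empty =>
      simp only [Finset.sum_empty, Finset.prod_empty, AddCircle.toCircle_zero]
      all_goals rfl
    | insert a s ha ih => rw [Finset.sum_insert ha, Finset.prod_insert ha, AddCircle.toCircle_add, ih]

/-- [TRIGM] -/
theorem trigm : S_TRIGM := by
  intro m F ε hε
  have h1 : F ∈ (Submodule.span ℂ (Set.range (UnitAddTorus.mFourier (d := Fin m)))).topologicalClosure := by
    rw [UnitAddTorus.span_mFourier_closure_eq_top]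
    trivial
  have h2 : F ∈ closure ((Submodule.span ℂ (Set.range (UnitAddTorus.mFourier (d := Fin m)))) : Set C(UnitAddTorus (Fin m), ℂ)) := h1
  obtain ⟨G, hG, hd⟩ := Metric.mem_closure_iff.1 h2 ε hε
  obtain ⟨c, hc⟩ := (Finsupp.mem_span_range_iff_exists_finsupp).1 hG
  refine ⟨c.support, c, fun x => ?_⟩
  have h3 : G x = ∑ k ∈ c.support, c k * (fourier 1 (lf k x) : ℂ) := by
    rw [← hc, Finsupp.sum, ContinuousMap.sum_apply]
    refine Finset.sum_congr rfl fun k _ => ?_
    rw [fourier_lf]
    simp
  rw [← h3, ← dist_eq_norm]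
  exact (ContinuousMap.dist_apply_le_dist x).trans hd.le

end Pool.Agent.Helper44K9.FB
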