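import Pool.Agent.Helper44K9.FB.Poly
import Pool.Agent.Helper44K9.FB.Sets
import Pool.Agent.Helper44K9.FB.Trigm
import Pool.Agent.Helper44K9.FU.Fin2
import Pool.Agent.Helper44K9.FU.Trig
import Pool.Agent.Helper44K9.FU.Ls
import Pool.Agent.Helper44K9.FU.Pw
import Pool.Agent.Helper44K9.FU.Push
import Pool.Agent.Helper44K9.FU.Tk
import Pool.Agent.Helper44K9.FU.Chb
import Pool.Agent.Helper44K9.FU.Kap
import Pool.Agent.Helper44K9.FU.Dil
import Pool.Agent.Helper44K9.FU.Pig
import Pool.Agent.Helper44K9.FU.Sub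

/-! Unipotent affine maps of tori: assembly. -/

set_option autoImplicit false

namespace Pool.Agent.Helper44K9.FB

open Finset MeasureTheory Polynomial
open Pool.Agent.H807R2.Dav (ee norm_ee)
open Pool.Agent.Helper44K9.FU (W wSup Mul1)
open Pool.Agent.Helper44K9.FU.FL

lemma lf_add {m : ℕ} (k : Fin m → ℤ) (x y : Fin m → UnitAddCircle) : lf k (x + y) = lf k x + lf k y := by
  unfold lf
  simp only [Pi.add_apply, smul_add, sum_add_distrib]

lemma lf_cont {m : ℕ} (k : Fin m → ℤ) : Continuous (lf k) := by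
  unfold lf
  fun_prop

lemma norm_fourier (x : UnitAddCircle) : ‖(fourier 1 x : ℂ)‖ = 1 := by
  rw [fourier_apply]
  exact Circle.norm_coe _

lemma fourier_real (x : ℝ) : (fourier 1 (x : UnitAddCircle) : ℂ) = ee x := by
  have h := Pool.Agent.Helper44K9.FU.TrigL.ee_fourier 1 x
  rw [h]
  norm_num

/-- the mean of a character -/
lemma mean_zero {m : ℕ} (k : Fin m → ℤ) (hk : k ≠ 0) : ∫ x : Fin m → UnitAddCircle, (fourier 1 (lf k x) : ℂ) = 0 := by
  obtain ⟨i, hi⟩ : ∃ i, k i ≠ 0 := by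
    by_contra h
    push Not at h
    exact hk (funext h)
  have hir : (k i : ℝ) ≠ 0 := by exact_mod_cast hi
  set t : Fin m → UnitAddCircle := Pi.single i ((1 / (2 * (k i : ℝ)) : ℝ) : UnitAddCircle) with ht
  have h1 : lf k t = ((1 / 2 : ℝ) : UnitAddCircle) := by
    unfold lf
    rw [sum_eq_single i]
    · rw [ht, Pi.single_eq_same, ← AddCircle.coe_zsmul]
      congr 1
      rw [zsmul_eq_mul]
      field_simp
    · intro j _ hj
      rw [ht, Pi.single_eq_of_ne hj, smul_zero]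
    · intro h
      exact absurd (mem_univ i) h
  have h2 : ∀ x, (fourier 1 (lf k (t + x)) : ℂ) = - (fourier 1 (lf k x) : ℂ) := by
    intro x
    rw [lf_add, h1, fourier_apply, fourier_apply, one_smul, one_smul, AddCircle.toCircle_add]
    have h3 : ((AddCircle.toCircle (((1 / 2 : ℝ) : UnitAddCircle)) : Circle) : ℂ) = -1 := by
      have h4 := fourier_real (1 / 2)
      rw [fourier_apply, one_smul] at h4
      rw [h4]
      unfold ee
      rw [show (2 * (Real.pi : ℂ) * Complex.I * ((1 / 2 : ℝ) : ℂ)) = Real.pi * Complex.I by push_cast; ring]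
      exact Complex.exp_pi_mul_I
    push_cast
    rw [h3]
    ring
  have h3 := integral_add_left_eq_self (μ := (volume : Measure (Fin m → UnitAddCircle)))
    (fun x => (fourier 1 (lf k x) : ℂ)) t
  simp only [h2] at h3
  rw [integral_neg] at h3
  have h4 : (2 : ℂ) * ∫ x : Fin m → UnitAddCircle, (fourier 1 (lf k x) : ℂ) = 0 := by
    linear_combination (-1 : ℂ) * h3
  rcases mul_eq_zero.1 h4 with h5 | h5
  · norm_num at h5
  · exact h5

/-- the mean of the trigonometric polynomial is near the mean of the function -/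
lemma mean_near {m : ℕ} (F : C(Fin m → UnitAddCircle, ℂ)) (S : Finset (Fin m → ℤ)) (a : (Fin m → ℤ) → ℂ) (ε : ℝ)
    (h : ∀ x : Fin m → UnitAddCircle, ‖F x - ∑ k ∈ S, a k * (fourier 1 (lf k x) : ℂ)‖ ≤ ε) :
    ‖(∫ x, F x) - if (0 : Fin m → ℤ) ∈ S then a 0 else 0‖ ≤ ε := by
  classical
  have hv : volume (Set.univ : Set (Fin m → UnitAddCircle)) = 1 := by
    rw [← Set.pi_univ (Set.univ : Set (Fin m)), volume_pi_pi]
    simp [UnitAddCircle.measure_univ]
  have hc : ∀ k : Fin m → ℤ, Continuous fun x : Fin m → UnitAddCircle => (fourier 1 (lf k x) : ℂ) :=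
    fun k => (fourier 1).continuous.comp (lf_cont k)
  have hi : ∀ k : Fin m → ℤ, Integrable (fun x : Fin m → UnitAddCircle => (fourier 1 (lf k x) : ℂ)) := by
    intro k
    refine Integrable.mono' (integrable_const (1 : ℝ)) (hc k).aestronglyMeasurable ?_
    exact Filter.Eventually.of_forall fun x => (norm_fourier _).le
  have hF : Integrable (fun x => F x) := by
    refine Integrable.mono' (integrable_const ‖F‖) F.continuous.aestronglyMeasurable ?_
    exact Filter.Eventually.of_forall fun x => F.norm_coe_le_norm x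
  have h1 : ∫ x : Fin m → UnitAddCircle, ∑ k ∈ S, a k * (fourier 1 (lf k x) : ℂ) =
      if (0 : Fin m → ℤ) ∈ S then a 0 else 0 := by
    rw [integral_finsetSum _ fun k _ => (hi k).const_mul _]
    have h2 : ∀ k ∈ S, ∫ x : Fin m → UnitAddCircle, a k * (fourier 1 (lf k x) : ℂ) = if k = 0 then a 0 else 0 := by
      intro k _
      rw [integral_const_mul]
      split_ifs with hk
      · subst hk
        have : ∀ x : Fin m → UnitAddCircle, (fourier 1 (lf 0 x) : ℂ) = 1 := by
          intro x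
          unfold lf
          simp
        simp [this, Measure.real, hv]
      · rw [mean_zero k hk, mul_zero]
    rw [sum_congr rfl h2, sum_ite_eq' S 0]
  rw [← h1, ← integral_sub hF (integrable_finsetSum _ fun k _ => (hi k).const_mul _)]
  calc ‖∫ x : Fin m → UnitAddCircle, (F x - ∑ k ∈ S, a k * (fourier 1 (lf k x) : ℂ))‖ ≤
      ε * (volume (Set.univ : Set (Fin m → UnitAddCircle))).toReal := by
        have : IsFiniteMeasure (volume : Measure (Fin m → UnitAddCircle)) := ⟨by rw [hv]; exact ENNReal.one_lt_top⟩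
        exact norm_integral_le_of_norm_le_const (Filter.Eventually.of_forall h)
    _ = ε := by rw [hv]; simp

/-- the theorem on polynomial phases, null sets -/
theorem null_phases (d : ℕ) (hd : 1 ≤ d) (E : Set UnitAddCircle) (hEc : IsCompact E) (hEv : volume E = 0)
    (hEt : ∀ x ∈ E, addOrderOf x = 0) (ε : ℝ) (hε : 0 < ε) : ∃ H₀ : ℕ, ∀ f : ℕ → ℂ, Mul1 f → ∀ N H : ℕ, H₀ ≤ H → H ≤ N →
      ∑ n ∈ Icc 1 N, (1 / (n : ℝ)) * wSup d E f n H ≤ ε * H * Real.log N := by
  open Pool.Agent.Helper44K9.FU in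
  obtain ⟨A, hA, h⟩ := fin2 (bes2 wr2) (push tk) nr2 (eq2 pw trig2 kap chb) dil_ pig sub (ls wr tk kap) d hd
  obtain ⟨H₀, hH₀⟩ := h E hEc hEt ε hε
  refine ⟨H₀, fun f hf N H hH hN => ?_⟩
  have h1 := hH₀ f hf N H hH hN
  have h2 : (0 : ℝ) ^ (1 / (A : ℝ)) = 0 := by
    apply Real.zero_rpow
    have : (0 : ℝ) < A := by exact_mod_cast hA
    positivity
  rw [hEv, ENNReal.toReal_zero, h2, mul_zero, zero_add] at h1
  exact h1

lemma Ioc_image (n H : ℕ) : Ioc n (n + H) = (Icc 1 H).image (fun h => n + h) := by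
  ext m
  simp only [mem_Ioc, mem_image, mem_Icc]
  constructor
  · intro h; exact ⟨m - n, by omega, by omega⟩
  · rintro ⟨j, hj, rfl⟩; omega

/-- one character -/
theorem char_bound {m s : ℕ} {A : Matrix (Fin m) (Fin m) ℤ} (hA : (A - 1) ^ s = 0) {E : Set (Fin m → UnitAddCircle)}
    (hEc : IsCompact E) (hE : ∀ k : Fin m → ℤ, k ≠ 0 → Matrix.vecMul k A = k → volume (lf k '' E) = 0 ∧
      ∀ b ∈ E, addOrderOf (lf k b) = 0) {k : Fin m → ℤ} (hk : k ≠ 0) :
    ∃ (d : ℕ) (E' : Set UnitAddCircle), 1 ≤ d ∧ IsCompact E' ∧ volume E' = 0 ∧ (∀ y ∈ E', addOrderOf y = 0) ∧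
      ∀ f : ℕ → ℂ, (∀ n, ‖f n‖ ≤ 1) → ∀ n H : ℕ, ∀ b ∈ E, ∀ x : Fin m → UnitAddCircle,
        ‖∑ h ∈ Icc 1 H, f (n + h) * (fourier 1 (lf k ((aff A b)^[n + h] x)) : ℂ)‖ ≤ wSup d E' f n H := by
  obtain ⟨d, k', hd, hk', hkA, hP⟩ := poly m s A hA k hk
  obtain ⟨hv, ht⟩ := hE k' hk' hkA
  have hc : IsCompact (lf k' '' E) := hEc.image (lf_cont k')
  obtain ⟨h1, h2, h3⟩ := sets (lf k' '' E) d.factorial (Nat.factorial_pos d) hc hv (by
    rintro _ ⟨b, hb, rfl⟩
    exact ht b hb)
  refine ⟨d, {y : UnitAddCircle | d.factorial • y ∈ lf k' '' E}, hd, h1, h2, h3, fun f hf n H b hb x => ?_⟩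
  obtain ⟨P, hPd, hPv, hPc⟩ := hP b x
  have h4 : ∑ h ∈ Icc 1 H, f (n + h) * (fourier 1 (lf k ((aff A b)^[n + h] x)) : ℂ) = W f P n H := by
    unfold W
    rw [Ioc_image, sum_image fun a _ b _ hab => by omega]
    refine sum_congr rfl fun h _ => ?_
    rw [← hPv, fourier_real]
  rw [h4]
  refine le_wSup hf n H hPd ?_
  show d.factorial • ((P.coeff d : ℝ) : UnitAddCircle) ∈ lf k' '' E
  rw [hPc]
  exact ⟨b, hb, rfl⟩

/-- the supremum over `b ∈ E` and all starting points -/
noncomputable def oSup {m : ℕ} (A : Matrix (Fin m) (Fin m) ℤ) (F : (Fin m → UnitAddCircle) → ℂ)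
    (E : Set (Fin m → UnitAddCircle)) (f : ℕ → ℂ) (n H : ℕ) : ℝ :=
  ⨆ p : E × (Fin m → UnitAddCircle), ‖∑ h ∈ Icc 1 H, f (n + h) * F ((aff A p.1)^[n + h] p.2)‖

/-- the theorem for functions of mean zero -/
theorem fb {m s : ℕ} {A : Matrix (Fin m) (Fin m) ℤ} (hA : (A - 1) ^ s = 0) (F : C(Fin m → UnitAddCircle, ℂ))
    {E : Set (Fin m → UnitAddCircle)} (hEc : IsCompact E)
    (hE : ∀ k : Fin m → ℤ, k ≠ 0 → Matrix.vecMul k A = k → volume (lf k '' E) = 0 ∧
      ∀ b ∈ E, addOrderOf (lf k b) = 0) (ε : ℝ) (hε : 0 < ε) :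
    ∃ H₀ : ℕ, ∀ f : ℕ → ℂ, Mul1 f → ∀ N H : ℕ, H₀ ≤ H → H ≤ N →
      ∑ n ∈ Icc 1 N, (1 / (n : ℝ)) * oSup A (fun x => F x - ∫ y, F y) E f n H ≤ ε * H * Real.log N := by
  classical
  obtain ⟨S, a, hSa⟩ := trigm m F (ε / 16) (by positivity)
  have hmean := mean_near F S a (ε / 16) hSa
  set S' : Finset (Fin m → ℤ) := S.filter (fun k => k ≠ 0) with hS'
  -- the characters
  have hchar : ∀ k : Fin m → ℤ, ∃ (G : (ℕ → ℂ) → ℕ → ℕ → ℝ) (H₀ : ℕ), k ∈ S' → (∀ f n H, 0 ≤ G f n H) ∧
      (∀ f : ℕ → ℂ, (∀ n, ‖f n‖ ≤ 1) → ∀ n H : ℕ, ∀ b ∈ E, ∀ x : Fin m → UnitAddCircle,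
        ‖∑ h ∈ Icc 1 H, f (n + h) * (fourier 1 (lf k ((aff A b)^[n + h] x)) : ℂ)‖ ≤ G f n H) ∧
      ∀ f : ℕ → ℂ, Mul1 f → ∀ N H : ℕ, H₀ ≤ H → H ≤ N →
        ∑ n ∈ Icc 1 N, (1 / (n : ℝ)) * G f n H ≤ (ε / (4 * (#S' + 1) * (‖a k‖ + 1))) * H * Real.log N := by
    intro k
    by_cases hk : k ∈ S'
    · have hk0 : k ≠ 0 := (mem_filter.1 hk).2
      obtain ⟨d, E', hd, hE'c, hE'v, hE't, hb⟩ := char_bound hA hEc hE hk0
      obtain ⟨H₀, hH₀⟩ := null_phases d hd E' hE'c hE'v hE't (ε / (4 * (#S' + 1) * (‖a k‖ + 1))) (by positivity)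
      exact ⟨wSup d E', H₀, fun _ => ⟨fun f n H => wSup_nonneg n H, hb, hH₀⟩⟩
    · exact ⟨fun _ _ _ => 0, 0, fun h => absurd h hk⟩
  choose G HG hG using hchar
  refine ⟨∑ k ∈ S', HG k + 3, fun f hf N H hH hN => ?_⟩
  have hHr : (0 : ℝ) < H := by exact_mod_cast (by omega : 0 < H)
  have hNr : (3 : ℝ) ≤ N := by exact_mod_cast (by omega : 3 ≤ N)
  have hlog : 1 ≤ Real.log N := by
    rw [Real.le_log_iff_exp_le (by linarith)]
    linarith [Real.exp_one_lt_d9]
  have hharm : ∑ n ∈ Icc 1 N, 1 / (n : ℝ) ≤ 1 + Real.log N := by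
    have h1 := harmonic_le_one_add_log N
    refine le_trans (le_of_eq ?_) h1
    rw [harmonic_eq_sum_Icc]
    push_cast
    exact sum_congr rfl fun x _ => one_div _
  -- pointwise
  have hpt : ∀ n, oSup A (fun x => F x - ∫ y, F y) E f n H ≤ ∑ k ∈ S', ‖a k‖ * G k f n H + ε / 8 * H := by
    intro n
    have hnn : 0 ≤ ∑ k ∈ S', ‖a k‖ * G k f n H + ε / 8 * H :=
      add_nonneg (sum_nonneg fun k hk => mul_nonneg (norm_nonneg _) ((hG k hk).1 f n H)) (by positivity)
    refine Real.iSup_le (fun p => ?_) hnn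
    obtain ⟨⟨b, hb⟩, x⟩ := p
    show ‖∑ h ∈ Icc 1 H, f (n + h) * (F ((aff A b)^[n + h] x) - ∫ y, F y)‖ ≤ _
    have hsplit : ∀ y : Fin m → UnitAddCircle, F y - ∫ y, F y = ∑ k ∈ S', a k * (fourier 1 (lf k y) : ℂ) +
        ((F y - ∑ k ∈ S, a k * (fourier 1 (lf k y) : ℂ)) - ((∫ y, F y) - if (0 : Fin m → ℤ) ∈ S then a 0 else 0)) := by
      intro y
      have h1 := sum_filter_add_sum_filter_not S (fun k : Fin m → ℤ => k ≠ 0) (fun k => a k * (fourier 1 (lf k y) : ℂ))
      have h2 : ∑ k ∈ S.filter (fun k => ¬ k ≠ 0), a k * (fourier 1 (lf k y) : ℂ) =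
          if (0 : Fin m → ℤ) ∈ S then a 0 else 0 := by
        have h3 : ∀ k ∈ S.filter (fun k => ¬ k ≠ 0), a k * (fourier 1 (lf k y) : ℂ) = a 0 := by
          intro k hk
          have h4 : k = 0 := not_not.1 (mem_filter.1 hk).2
          subst h4
          unfold lf
          simp
        rw [sum_congr rfl h3, sum_const]
        have h5 : S.filter (fun k => ¬ k ≠ 0) = if (0 : Fin m → ℤ) ∈ S then {0} else ∅ := by
          ext k
          simp only [mem_filter, not_not]
          split_ifs with h6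
          · rw [mem_singleton]
            constructor
            · exact fun h => h.2
            · rintro rfl; exact ⟨h6, rfl⟩
          · constructor
            · rintro ⟨h7, rfl⟩; exact absurd h7 h6
            · intro h; simp at h
        rw [h5]
        split_ifs <;> simp
      rw [← h1, h2]
      ring
    calc ‖∑ h ∈ Icc 1 H, f (n + h) * (F ((aff A b)^[n + h] x) - ∫ y, F y)‖ =
        ‖∑ k ∈ S', a k * ∑ h ∈ Icc 1 H, f (n + h) * (fourier 1 (lf k ((aff A b)^[n + h] x)) : ℂ) +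
          ∑ h ∈ Icc 1 H, f (n + h) * ((F ((aff A b)^[n + h] x) -
            ∑ k ∈ S, a k * (fourier 1 (lf k ((aff A b)^[n + h] x)) : ℂ)) -
              ((∫ y, F y) - if (0 : Fin m → ℤ) ∈ S then a 0 else 0))‖ := by
          congr 1
          simp only [mul_sum]
          rw [sum_comm, ← sum_add_distrib]
          refine sum_congr rfl fun h _ => ?_
          rw [hsplit, mul_add, mul_sum]
          congr 1
          refine sum_congr rfl fun k _ => ?_
          ring
      _ ≤ ∑ k ∈ S', ‖a k‖ * G k f n H + ε / 8 * H := by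
          refine (norm_add_le _ _).trans (add_le_add ?_ ?_)
          · refine (norm_sum_le _ _).trans (sum_le_sum fun k hk => ?_)
            rw [norm_mul]
            exact mul_le_mul_of_nonneg_left ((hG k hk).2.1 f hf.1 n H b hb x) (norm_nonneg _)
          · refine (norm_sum_le _ _).trans ?_
            calc ∑ h ∈ Icc 1 H, ‖f (n + h) * ((F ((aff A b)^[n + h] x) -
                ∑ k ∈ S, a k * (fourier 1 (lf k ((aff A b)^[n + h] x)) : ℂ)) -
                  ((∫ y, F y) - if (0 : Fin m → ℤ) ∈ S then a 0 else 0))‖ ≤ ∑ h ∈ Icc 1 H, ε / 8 := by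
                  refine sum_le_sum fun h _ => ?_
                  rw [norm_mul]
                  have h1 := norm_sub_le (F ((aff A b)^[n + h] x) -
                    ∑ k ∈ S, a k * (fourier 1 (lf k ((aff A b)^[n + h] x)) : ℂ))
                    ((∫ y, F y) - if (0 : Fin m → ℤ) ∈ S then a 0 else 0)
                  have h2 := hSa ((aff A b)^[n + h] x)
                  have h3 := hf.1 (n + h)
                  have h4 := norm_nonneg ((F ((aff A b)^[n + h] x) -
                    ∑ k ∈ S, a k * (fourier 1 (lf k ((aff A b)^[n + h] x)) : ℂ)) -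
                    ((∫ y, F y) - if (0 : Fin m → ℤ) ∈ S then a 0 else 0))
                  calc _ ≤ 1 * ‖(F ((aff A b)^[n + h] x) -
                    ∑ k ∈ S, a k * (fourier 1 (lf k ((aff A b)^[n + h] x)) : ℂ)) -
                    ((∫ y, F y) - if (0 : Fin m → ℤ) ∈ S then a 0 else 0)‖ := mul_le_mul_of_nonneg_right h3 h4
                    _ ≤ ε / 8 := by rw [one_mul]; linarith
              _ = ε / 8 * H := by rw [sum_const, Nat.card_Icc, nsmul_eq_mul]; simp [mul_comm]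
  calc ∑ n ∈ Icc 1 N, (1 / (n : ℝ)) * oSup A (fun x => F x - ∫ y, F y) E f n H ≤
      ∑ n ∈ Icc 1 N, (1 / (n : ℝ)) * (∑ k ∈ S', ‖a k‖ * G k f n H + ε / 8 * H) :=
        sum_le_sum fun n _ => mul_le_mul_of_nonneg_left (hpt n) (by positivity)
    _ = ∑ k ∈ S', ‖a k‖ * ∑ n ∈ Icc 1 N, (1 / (n : ℝ)) * G k f n H + ε / 8 * H * ∑ n ∈ Icc 1 N, 1 / (n : ℝ) := by
        simp only [mul_add, sum_add_distrib, mul_sum]
        rw [sum_comm]
        congr 1
        · refine sum_congr rfl fun k _ => sum_congr rfl fun n _ => ?_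
          ring
        · refine sum_congr rfl fun n _ => ?_
          ring
    _ ≤ ∑ k ∈ S', (ε / (4 * (#S' + 1))) * H * Real.log N + ε / 8 * H * (1 + Real.log N) := by
        refine add_le_add (sum_le_sum fun k hk => ?_) (mul_le_mul_of_nonneg_left hharm (by positivity))
        have h1 : HG k ≤ ∑ k ∈ S', HG k := single_le_sum (f := HG) (fun _ _ => Nat.zero_le _) hk
        have h2 := (hG k hk).2.2 f hf N H (by omega) hN
        have h3 : ‖a k‖ * ∑ n ∈ Icc 1 N, (1 / (n : ℝ)) * G k f n H ≤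
            (‖a k‖ + 1) * ((ε / (4 * (#S' + 1) * (‖a k‖ + 1))) * H * Real.log N) := by
          refine mul_le_mul (by linarith) h2 ?_ (by positivity)
          exact sum_nonneg fun n _ => mul_nonneg (by positivity) ((hG k hk).1 f n H)
        refine h3.trans (le_of_eq ?_)
        field_simp
    _ ≤ ε / 4 * H * Real.log N + ε / 8 * H * (1 + Real.log N) := by
        refine add_le_add ?_ le_rfl
        rw [sum_const, nsmul_eq_mul]
        have h1 : (#S' : ℝ) * (ε / (4 * (#S' + 1)) * H * Real.log N) = (#S' * (ε / (4 * (#S' + 1)))) * (H * Real.log N) := by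
          ring
        rw [h1, mul_assoc (ε / 4)]
        refine mul_le_mul_of_nonneg_right ?_ (by positivity)
        rw [mul_div_assoc', div_le_div_iff₀ (by positivity) (by norm_num)]
        nlinarith
    _ ≤ ε * H * Real.log N := by
        have h1 : 0 < ε * H := by positivity
        nlinarith

end Pool.Agent.Helper44K9.FB
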