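import Pool.Agent.Helper44K9.FB.Fin
import Pool.Agent.Results.MP_663568_nt.SmallFrequencySets

/-! Unipotent affine maps, the Möbius function. -/

set_option autoImplicit false

open Finset MeasureTheory

namespace Pool.Agent.Helper44K9.FB

/-- the Möbius function -/
noncomputable def mu (n : ℕ) : ℂ := ((ArithmeticFunction.moebius n : ℤ) : ℂ)

lemma mu_mult : Pool.Agent.Helper44K9.FU.Mul1 mu := by
  constructor
  · intro n
    unfold mu
    rw [Complex.norm_intCast]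
    have h1 := ArithmeticFunction.abs_moebius_le_one (n := n)
    exact_mod_cast h1
  · intro a b hab
    unfold mu
    rw [ArithmeticFunction.isMultiplicative_moebius.map_mul_of_coprime hab]
    push_cast
    ring

/-- short sums of the Möbius function -/
lemma mu_short (ε : ℝ) (hε : 0 < ε) : ∃ H₀ : ℕ, ∀ N H : ℕ, H₀ ≤ H → H ≤ N →
    ∑ n ∈ Icc 1 N, (1 / (n : ℝ)) * ‖∑ h ∈ Icc 1 H, mu (n + h)‖ ≤ ε * H * Real.log N := by
  obtain ⟨H₀, h⟩ := Pool.Agent.Results.MP_663568_nt.SmallFrequencySets.result 0 (ContinuousMap.const _ 1) 1 0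
    (by norm_num) ε hε
  refine ⟨H₀, fun N H hH hN => ?_⟩
  have h1 := (h N H hH hN Set.univ (fun n _ => ⟨{0}, by simp, fun g _ => ⟨0, by simp, by
    rw [Subsingleton.elim g 0, dist_self]; positivity⟩⟩)).1
  refine le_trans (le_of_eq ?_) h1
  refine sum_congr rfl fun n _ => ?_
  congr 1
  unfold Pool.Agent.Results.MP_663568_nt.SmallFrequencySets.windowSup
  simp only [ContinuousMap.const_apply, one_mul]
  have : Nonempty (↥(Set.univ : Set (Fin 0 → UnitAddCircle)) × (Fin 0 → UnitAddCircle)) := ⟨(⟨0, trivial⟩, 0)⟩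
  rw [ciSup_const]
  rfl

theorem fb_mu {m s : ℕ} {A : Matrix (Fin m) (Fin m) ℤ} (hA : (A - 1) ^ s = 0) (F : C(Fin m → UnitAddCircle, ℂ))
    {E : Set (Fin m → UnitAddCircle)} (hEc : IsCompact E)
    (hE : ∀ k : Fin m → ℤ, k ≠ 0 → Matrix.vecMul k A = k → volume (lf k '' E) = 0 ∧
      ∀ b ∈ E, addOrderOf (lf k b) = 0) (ε : ℝ) (hε : 0 < ε) :
    ∃ H₀ : ℕ, ∀ N H : ℕ, H₀ ≤ H → H ≤ N →
      ∑ n ∈ Icc 1 N, (1 / (n : ℝ)) * oSup A F E mu n H ≤ ε * H * Real.log N := by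
  obtain ⟨H₁, h₁⟩ := fb hA F hEc hE (ε / 2) (by positivity)
  set c : ℂ := ∫ y, F y with hc
  obtain ⟨H₂, h₂⟩ := mu_short (ε / (2 * (‖c‖ + 1))) (by positivity)
  refine ⟨H₁ + H₂, fun N H hH hN => ?_⟩
  have hlog : 0 ≤ Real.log N := Real.log_natCast_nonneg N
  have hHr : (0 : ℝ) ≤ H := Nat.cast_nonneg _
  have h3 := h₁ mu mu_mult N H (by omega) hN
  have h4 := h₂ N H (by omega) hN
  have hpt : ∀ n, oSup A F E mu n H ≤ oSup A (fun x => F x - c) E mu n H + ‖c‖ * ‖∑ h ∈ Icc 1 H, mu (n + h)‖ := by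
    intro n
    have hbdd : BddAbove (Set.range fun p : E × (Fin m → UnitAddCircle) =>
        ‖∑ h ∈ Icc 1 H, mu (n + h) * (F ((aff A p.1)^[n + h] p.2) - c)‖) := by
      refine ⟨∑ h ∈ Icc 1 H, (‖F‖ + ‖c‖), ?_⟩
      rintro _ ⟨p, rfl⟩
      refine (norm_sum_le _ _).trans (sum_le_sum fun h _ => ?_)
      rw [norm_mul]
      have e1 := mu_mult.1 (n + h)
      have e2 : ‖F ((aff A p.1)^[n + h] p.2) - c‖ ≤ ‖F‖ + ‖c‖ :=
        (norm_sub_le _ _).trans (add_le_add (F.norm_coe_le_norm _) le_rfl)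
      calc _ ≤ 1 * ‖F ((aff A p.1)^[n + h] p.2) - c‖ :=
            mul_le_mul_of_nonneg_right e1 (norm_nonneg _)
        _ ≤ _ := by rw [one_mul]; exact e2
    have hnn : 0 ≤ oSup A (fun x => F x - c) E mu n H + ‖c‖ * ‖∑ h ∈ Icc 1 H, mu (n + h)‖ :=
      add_nonneg (Real.iSup_nonneg fun _ => norm_nonneg _) (by positivity)
    refine Real.iSup_le (fun p => ?_) hnn
    have e3 : ∑ h ∈ Icc 1 H, mu (n + h) * F ((aff A p.1)^[n + h] p.2) =
        ∑ h ∈ Icc 1 H, mu (n + h) * (F ((aff A p.1)^[n + h] p.2) - c) + c * ∑ h ∈ Icc 1 H, mu (n + h) := by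
      rw [mul_sum, ← sum_add_distrib]
      refine sum_congr rfl fun h _ => ?_
      ring
    rw [e3]
    refine (norm_add_le _ _).trans (add_le_add ?_ ?_)
    · exact le_ciSup hbdd p
    · rw [norm_mul]
  calc ∑ n ∈ Icc 1 N, (1 / (n : ℝ)) * oSup A F E mu n H ≤
      ∑ n ∈ Icc 1 N, ((1 / (n : ℝ)) * oSup A (fun x => F x - c) E mu n H +
        ‖c‖ * ((1 / (n : ℝ)) * ‖∑ h ∈ Icc 1 H, mu (n + h)‖)) := by
        refine sum_le_sum fun n _ => ?_
        have := mul_le_mul_of_nonneg_left (hpt n) (show (0 : ℝ) ≤ 1 / n by positivity)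
        refine this.trans (le_of_eq ?_)
        ring
    _ ≤ ε / 2 * H * Real.log N + (‖c‖ + 1) * (ε / (2 * (‖c‖ + 1)) * H * Real.log N) := by
        rw [sum_add_distrib, ← mul_sum]
        refine add_le_add h3 ?_
        refine mul_le_mul (by linarith) h4 (sum_nonneg fun n _ => by positivity) (by positivity)
    _ = ε * H * Real.log N := by field_simp; ring

end Pool.Agent.Helper44K9.FB
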