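import Pool.Agent.Helper44K9.FB.Stm

/-! [POLY] the phases of the orbits of unipotent affine maps (helper65). -/

set_option autoImplicit false

namespace Pool.Agent.Helper44K9.FB

open Finset MeasureTheory Polynomial
open Pool.Agent.H807R2.Dav (ee)

namespace PolyL

lemma lf_add {m : ℕ} (k l : Fin m → ℤ) (x : Fin m → UnitAddCircle) : lf (k + l) x = lf k x + lf l x := by
  simp [lf, add_smul, Finset.sum_add_distrib]

lemma lf_add' {m : ℕ} (k : Fin m → ℤ) (x y : Fin m → UnitAddCircle) : lf k (x + y) = lf k x + lf k y := by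
  simp [lf, smul_add, Finset.sum_add_distrib]

lemma lf_zero {m : ℕ} (x : Fin m → UnitAddCircle) : lf 0 x = 0 := by
  simp [lf]

lemma lf_aff {m : ℕ} (A : Matrix (Fin m) (Fin m) ℤ) (b x : Fin m → UnitAddCircle) (k : Fin m → ℤ) :
    lf k (aff A b x) = lf (Matrix.vecMul k A) x + lf k b := by
  have h1 : aff A b x = (fun i => ∑ j, A i j • x j) + b := by
    ext i; rfl
  rw [h1, lf_add']
  congr 1
  unfold lf
  simp only [Matrix.vecMul, dotProduct, Finset.sum_smul, Finset.smul_sum, mul_smul]
  rw [Finset.sum_comm]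

lemma shift {G : Type*} [AddCommGroup G] (d n : ℕ) (g : ℕ → G) (hg : g d = 0) :
    ∑ i ∈ range d, (n.choose i) • g i = ∑ i ∈ range d, (n.choose (i + 1)) • g (i + 1) + g 0 := by
  have h1 := Finset.sum_range_succ (fun i => (n.choose i) • g i) d
  have h2 := Finset.sum_range_succ' (fun i => (n.choose i) • g i) d
  rw [hg, smul_zero, add_zero] at h1
  rw [← h1, h2]
  simp

lemma orbit {m : ℕ} (A : Matrix (Fin m) (Fin m) ℤ) (b x : Fin m → UnitAddCircle) (k : Fin m → ℤ) (d : ℕ)
    (hd : ∀ i, d ≤ i → Matrix.vecMul k ((A - 1) ^ i) = 0) (n : ℕ) : ∀ j : ℕ,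
    lf (Matrix.vecMul k ((A - 1) ^ j)) ((aff A b)^[n] x) =
      ∑ i ∈ range d, (n.choose i) • lf (Matrix.vecMul k ((A - 1) ^ (i + j))) x +
        ∑ i ∈ range d, (n.choose (i + 1)) • lf (Matrix.vecMul k ((A - 1) ^ (i + j))) b := by
  have hz : ∀ (j : ℕ) (y : Fin m → UnitAddCircle), lf (Matrix.vecMul k ((A - 1) ^ (d + j))) y = 0 := by
    intro j y
    rw [hd _ (by omega), lf_zero]
  induction n with
  | zero =>
    intro j
    rw [shift d 0 (fun i => lf (Matrix.vecMul k ((A - 1) ^ (i + j))) x) (hz j x)]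
    simp
  | succ n ih =>
    intro j
    have hA : Matrix.vecMul (Matrix.vecMul k ((A - 1) ^ j)) A =
        Matrix.vecMul k ((A - 1) ^ j) + Matrix.vecMul k ((A - 1) ^ (j + 1)) := by
      have h1 : (A - 1) ^ j * A = (A - 1) ^ j + (A - 1) ^ (j + 1) := by
        rw [pow_succ, mul_sub, mul_one]; abel
      rw [Matrix.vecMul_vecMul, h1, Matrix.vecMul_add]
    rw [Function.iterate_succ_apply', lf_aff, hA, lf_add, ih j, ih (j + 1)]
    have e1 := shift d (n + 1) (fun i => lf (Matrix.vecMul k ((A - 1) ^ (i + j))) x) (hz j x)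
    have e2 := shift d n (fun i => lf (Matrix.vecMul k ((A - 1) ^ (i + j))) x) (hz j x)
    have e3 := shift d n (fun i => lf (Matrix.vecMul k ((A - 1) ^ (i + j))) b) (hz j b)
    have e4 : ∀ i, i + (j + 1) = i + 1 + j := fun i => by ring
    simp only [Nat.choose_succ_succ, Nat.succ_eq_add_one, add_smul, Finset.sum_add_distrib, e4, zero_add] at e1 e2 e3 ⊢
    rw [e1, e3, e2]
    abel

/-- the binomial coefficient as a real polynomial -/
noncomputable def bi (i : ℕ) : ℝ[X] := C ((i.factorial : ℝ)⁻¹) * descPochhammer ℝ i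

lemma bi_eval (i n : ℕ) : (bi i).eval (n : ℝ) = (n.choose i : ℝ) := by
  unfold bi
  rw [eval_mul, eval_C, descPochhammer_eval_eq_descFactorial, Nat.descFactorial_eq_factorial_mul_choose]
  push_cast
  field_simp

lemma bi_natDegree (i : ℕ) : (bi i).natDegree ≤ i := by
  unfold bi
  refine (natDegree_C_mul_le _ _).trans ?_
  rw [descPochhammer_natDegree]

lemma bi_coeff (i : ℕ) : (bi i).coeff i = (i.factorial : ℝ)⁻¹ := by
  unfold bi
  have h1 := (monic_descPochhammer ℝ i).coeff_natDegree
  rw [descPochhammer_natDegree] at h1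
  rw [coeff_C_mul, h1, mul_one]

lemma coe_sum (s : Finset ℕ) (f : ℕ → ℝ) :
    ((∑ i ∈ s, f i : ℝ) : UnitAddCircle) = ∑ i ∈ s, (f i : UnitAddCircle) :=
  map_sum (QuotientAddGroup.mk' (AddSubgroup.zmultiples (1 : ℝ))) f s

end PolyL

open PolyL in
/-- [POLY] -/
theorem poly : S_POLY := by
  intro m s A hA k hk
  classical
  have hex : ∃ i, Matrix.vecMul k ((A - 1) ^ i) = 0 := ⟨s, by rw [hA, Matrix.vecMul_zero]⟩
  set d := Nat.find hex with hd
  have hd0 : Matrix.vecMul k ((A - 1) ^ d) = 0 := Nat.find_spec hex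
  have hd1 : 1 ≤ d := by
    by_contra h
    have h0 : d = 0 := by omega
    rw [h0, pow_zero, Matrix.vecMul_one] at hd0
    exact hk hd0
  have hd2 : Matrix.vecMul k ((A - 1) ^ (d - 1)) ≠ 0 := Nat.find_min hex (by omega)
  have hd3 : ∀ i, d ≤ i → Matrix.vecMul k ((A - 1) ^ i) = 0 := by
    intro i hi
    rw [show i = d + (i - d) by omega, pow_add, ← Matrix.vecMul_vecMul, hd0, Matrix.zero_vecMul]
  refine ⟨d, Matrix.vecMul k ((A - 1) ^ (d - 1)), hd1, hd2, ?_, ?_⟩
  · have h1 : (A - 1) ^ (d - 1) * A = (A - 1) ^ (d - 1) + (A - 1) ^ d := by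
      conv_rhs => rw [show (A - 1) ^ d = (A - 1) ^ (d - 1) * (A - 1) by rw [← pow_succ]; congr 1; omega]
      rw [mul_sub, mul_one]; abel
    rw [Matrix.vecMul_vecMul, h1, Matrix.vecMul_add, hd0, add_zero]
  · intro b x
    have hl : ∀ c : UnitAddCircle, ∃ r : ℝ, (r : UnitAddCircle) = c := fun c => QuotientAddGroup.mk_surjective c
    choose L hL using hl
    set r : ℕ → ℝ := fun i => L (lf (Matrix.vecMul k ((A - 1) ^ i)) x) with hr
    set t : ℕ → ℝ := fun i => L (lf (Matrix.vecMul k ((A - 1) ^ i)) b) with ht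
    refine ⟨∑ i ∈ range d, C (r i) * bi i + ∑ i ∈ range d, C (t i) * bi (i + 1), ?_, ?_, ?_⟩
    · refine (natDegree_add_le _ _).trans (max_le ?_ ?_)
      · refine natDegree_sum_le_of_forall_le _ _ fun i hi => ?_
        have := mem_range.1 hi
        exact (natDegree_C_mul_le _ _).trans ((bi_natDegree i).trans (by omega))
      · refine natDegree_sum_le_of_forall_le _ _ fun i hi => ?_
        have := mem_range.1 hi
        exact (natDegree_C_mul_le _ _).trans ((bi_natDegree (i + 1)).trans (by omega))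
    · intro n
      have h1 := orbit A b x k d hd3 n 0
      simp only [pow_zero, Matrix.vecMul_one, add_zero] at h1
      rw [h1, eval_add, eval_finsetSum, eval_finsetSum]
      simp only [eval_mul, eval_C, bi_eval]
      rw [AddCircle.coe_add, coe_sum, coe_sum]
      congr 1
      · refine Finset.sum_congr rfl fun i _ => ?_
        rw [mul_comm, ← nsmul_eq_mul, AddCircle.coe_nsmul, hr]
        simp only [hL]
      · refine Finset.sum_congr rfl fun i _ => ?_
        rw [mul_comm, ← nsmul_eq_mul, AddCircle.coe_nsmul, ht]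
        simp only [hL]
    · have h1 : ∑ i ∈ range d, (C (r i) * bi i).coeff d = 0 := by
        refine Finset.sum_eq_zero fun i hi => ?_
        refine coeff_eq_zero_of_natDegree_lt ?_
        exact lt_of_le_of_lt ((natDegree_C_mul_le _ _).trans (bi_natDegree i)) (mem_range.1 hi)
      have h2 : ∑ i ∈ range d, (C (t i) * bi (i + 1)).coeff d = t (d - 1) * (d.factorial : ℝ)⁻¹ := by
        rw [Finset.sum_eq_single (d - 1)]
        · rw [coeff_C_mul, show d - 1 + 1 = d by omega, bi_coeff]
        · intro i hi hne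
          have := mem_range.1 hi
          refine coeff_eq_zero_of_natDegree_lt ?_
          exact lt_of_le_of_lt ((natDegree_C_mul_le _ _).trans (bi_natDegree (i + 1))) (by omega)
        · intro h
          exact absurd (mem_range.2 (by omega)) h
      rw [coeff_add, finsetSum_coeff, finsetSum_coeff, h1, h2, zero_add, ← AddCircle.coe_nsmul, nsmul_eq_mul]
      have h3 : (d.factorial : ℝ) * (t (d - 1) * (d.factorial : ℝ)⁻¹) = t (d - 1) := by
        have : (d.factorial : ℝ) ≠ 0 := by exact_mod_cast Nat.factorial_ne_zero d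
        field_simp
      rw [h3, ht]
      exact hL _

end Pool.Agent.Helper44K9.FB
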