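import Mathlib
import Pool.Agent.Helper44K9.FU.Stm

/-!
# Project FB (MP_663568_nt, helper44): unipotent affine maps of tori (affine nilrotations).
Definitions and statements of the leaves.
-/

set_option autoImplicit false

namespace Pool.Agent.Helper44K9.FB

open Finset MeasureTheory Polynomial
open Pool.Agent.H807R2.Dav (ee)

/-- the affine map `x ↦ A x + b` of the torus `ℝ^m/ℤ^m` -/
def aff {m : ℕ} (A : Matrix (Fin m) (Fin m) ℤ) (b x : Fin m → UnitAddCircle) : Fin m → UnitAddCircle :=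
  fun i => ∑ j, A i j • x j + b i

/-- the integral linear form `k` -/
def lf {m : ℕ} (k : Fin m → ℤ) (x : Fin m → UnitAddCircle) : UnitAddCircle := ∑ i, k i • x i

/-- [POLY] the phases of the orbits of a unipotent affine map are polynomials, and their leading coefficients come
from `b`. Proof: `N = A - 1`, `d - 1` = the largest `i` with `k N^i ≠ 0` (row vector times matrix), `k' = k N^(d-1)`;
`lf k (T^n x) = ∑_{i < d} (n choose i) lf (k N^i) x + ∑_{i < d} (n choose (i+1)) lf (k N^i) b` by induction on `n`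
(`lf k (aff A b y) = lf (k A) y + lf k b`, `k A = k + k N`); lift the values to real numbers and `(n choose i)` to the
real polynomial `descPochhammer ℝ i / i!`; only `i = d` contributes to the coefficient of `X^d`. -/
def S_POLY : Prop := ∀ (m s : ℕ) (A : Matrix (Fin m) (Fin m) ℤ), (A - 1) ^ s = 0 → ∀ k : Fin m → ℤ, k ≠ 0 →
  ∃ (d : ℕ) (k' : Fin m → ℤ), 1 ≤ d ∧ k' ≠ 0 ∧ Matrix.vecMul k' A = k' ∧ ∀ b x : Fin m → UnitAddCircle,
    ∃ P : ℝ[X], P.natDegree ≤ d ∧ (∀ n : ℕ, ((P.eval (n : ℝ) : ℝ) : UnitAddCircle) = lf k ((aff A b)^[n] x)) ∧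
      d.factorial • ((P.coeff d : ℝ) : UnitAddCircle) = lf k' b

/-- [SETS] preimages under `y ↦ q y`. (`volume = haarAddCircle`; multiplication by `q ≥ 1` preserves the measure:
`AddCircle.ergodic_nsmul` or `Ergodic...toMeasurePreserving`.) -/
def S_SETS : Prop := ∀ (E : Set UnitAddCircle) (q : ℕ), 1 ≤ q → IsCompact E → volume E = 0 →
  (∀ y ∈ E, addOrderOf y = 0) → IsCompact {y : UnitAddCircle | q • y ∈ E} ∧
    volume {y : UnitAddCircle | q • y ∈ E} = 0 ∧ ∀ y ∈ {y : UnitAddCircle | q • y ∈ E}, addOrderOf y = 0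

/-- [TRIGM] approximation of continuous functions on the torus by trigonometric polynomials
(`UnitAddTorus.span_mFourier_closure_eq_top`; or look at the proof of `Pool.Agent.TH327.Dim.PW_torus`). The function
`fun t => (fourier 1 t : ℂ)` is the character `e` of `ℝ/ℤ`. -/
def S_TRIGM : Prop := ∀ (m : ℕ) (F : C(Fin m → UnitAddCircle, ℂ)) (ε : ℝ), 0 < ε →
  ∃ (S : Finset (Fin m → ℤ)) (a : (Fin m → ℤ) → ℂ), ∀ x : Fin m → UnitAddCircle,
    ‖F x - ∑ k ∈ S, a k * (fourier 1 (lf k x) : ℂ)‖ ≤ ε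

end Pool.Agent.Helper44K9.FB
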